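import Pool.Agent.ZP3.StmtsP

/-!
Squad ZP3 (MP_6e1a06_nt), row FN3: the final theorem.
-/

set_option autoImplicit false

namespace Pool.Agent.ZP3.H09

open Polynomial Pool.Agent.ZPT

/-- The algebraic numbers embed into every algebraically closed field of characteristic 0. -/
lemma exists_emb (K : Type) [Field K] [CharZero K] [IsAlgClosed K] : Nonempty (Qb →+* K) := by
  have halg : Algebra.IsAlgebraic ℚ (algebraicClosure ℚ ℂ) := algebraicClosure.isAlgebraic ℚ ℂ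
  exact ⟨(IsAlgClosed.lift (R := ℚ) (S := algebraicClosure ℚ ℂ) (M := K)).toRingHom⟩

/-- The norm of an integer divisible by `p` and not by `p ^ 2`. -/
lemma norm_exact {p : ℕ} [Fact p.Prime] {N : ℤ} (h1 : (p : ℤ) ∣ N) (h2 : ¬ ((p : ℤ) ^ 2 ∣ N)) :
    padicNorm p (N : ℚ) = (p : ℚ)⁻¹ := by
  have hN : N ≠ 0 := by
    rintro rfl
    exact h2 (dvd_zero _)
  have hv : padicValInt p N = 1 := by
    have a1 : 1 ≤ padicValInt p N := by
      have := (padicValInt_dvd_iff (p := p) 1 N).mp (by simpa using h1)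
      rcases this with h | h
      · exact absurd h hN
      · exact h
    have a2 : ¬ 2 ≤ padicValInt p N := by
      intro h
      exact h2 ((padicValInt_dvd_iff (p := p) 2 N).mpr (Or.inr h))
    omega
  have hNq : (N : ℚ) ≠ 0 := by exact_mod_cast hN
  rw [padicNorm.eq_zpow_of_nonzero hNq, padicValRat.of_int, hv]
  simp

lemma norm_int_le {p : ℕ} [Fact p.Prime] {K : Type} [NormedField K] [CharZero K] (hK : Ext p K)
    (a : ℤ) : ‖((a : ℤ) : K)‖ ≤ 1 := by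
  have h := hK (a : ℚ)
  rw [Rat.cast_intCast] at h
  rw [h]
  exact_mod_cast padicNorm.of_int a

lemma norm_sub_one {K : Type} [NormedField K] [IsUltrametricDist K] {a b : K} (ha : ‖a‖ ≤ 1)
    (hb : ‖b‖ ≤ 1) (h : ¬ ‖a - b‖ < 1) : ‖a - b‖ = 1 :=
  by
  refine le_antisymm ?_ (not_lt.mp h)
  have := IsUltrametricDist.norm_add_le_max a (-b)
  rw [norm_neg, ← sub_eq_add_neg] at this
  exact le_trans this (max_le ha hb)

open Classical in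
theorem fn3 (hKX : KXStmt) (hPS : PSStmt) (hF3A : F3AStmt) (hF3B : F3BStmt) (hDN3 : DN3Stmt)
    (hBDC : BDCStmt) (hURA : URAStmt) : FN3Stmt := by
  intro n P hP hdim hQ hNT
  obtain ⟨U, Psi, hU, hPC, hPK⟩ := hPS
  obtain ⟨p1, E, hE⟩ := hF3A U Psi hU hPC n P hP hdim hQ hNT
  obtain ⟨p2, hA⟩ := hURA E
  have key : ∀ (p : ℕ) [Fact p.Prime], max 5 (max p1 p2) ≤ p → ∀ (σ : Qb →+* ℂ_[p])
      (c : Fin n → ℚ), (∀ i, padicNorm p (c i) = p) →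
      (∀ i j, i ≠ j → ∀ α ∈ E, ‖((c i : ℚ) : ℂ_[p]) - σ α * ((c j : ℚ) : ℂ_[p])‖ = p) →
      T3For P (fun i => ((c i : ℚ) : ℂ)) := by
    intro p hp hp0 σ c hc hd
    have h5 : 5 ≤ p := le_trans (le_max_left _ _) hp0
    have h1 : p1 ≤ p := le_trans (le_trans (le_max_left _ _) (le_max_right _ _)) hp0
    refine hF3B Psi hPC n P hP hdim hQ c ?_
    refine hE p hp.out h1 ℂ_[p] (hKX p) (hPK p hp.out h5 ℂ_[p] (hKX p)) σ c ?_ hd
    intro i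
    rw [hKX p (c i), hc i]
    simp
  refine ⟨⟨max 5 (max p1 p2), E, key⟩, ?_⟩
  intro ε hε
  have hσ : ∀ (p : ℕ) [Fact p.Prime], Nonempty (Qb →+* ℂ_[p]) := fun p _ => exists_emb ℂ_[p]
  let σ : ∀ (p : ℕ) (hp : Fact p.Prime), Qb →+* ℂ_[p] := fun p hp => Classical.choice (hσ p)
  let B : ℕ → Set (Fin n → ℤ) := fun p => {a | ∃ hp : Fact p.Prime, max 5 (max p1 p2) ≤ p ∧
    ∃ i j, i ≠ j ∧ ∃ α ∈ E.image (σ p hp), ‖((a i : ℤ) : ℂ_[p]) - α * ((a j : ℤ) : ℂ_[p])‖ < 1}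
  have hS : ∀ (p : ℕ) (hp : Fact p.Prime), max 5 (max p1 p2) ≤ p →
      ∀ α ∈ E.image (σ p hp), ‖α‖ ≤ 1 := by
    intro p hp hp0 α hα
    obtain ⟨g, hg, rfl⟩ := Finset.mem_image.mp hα
    have h2 : p2 ≤ p := le_trans (le_trans (le_max_right _ _) (le_max_right _ _)) hp0
    exact (hA p hp.out h2 ℂ_[p] (hKX p) (σ p hp) g hg).1.1
  have hper : ∀ p : ℕ, p.Prime → ∀ a a' : Fin n → ℤ, (∀ i, (p : ℤ) ∣ a i - a' i) →
      (a ∈ B p ↔ a' ∈ B p) := by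
    intro p hp a a' haa
    have hF : Fact p.Prime := ⟨hp⟩
    by_cases hp0 : max 5 (max p1 p2) ≤ p
    · have h := (hBDC p hp ℂ_[p] (hKX p) n (E.image (σ p hF)) (hS p hF hp0)).1 a a' haa
      constructor
      · rintro ⟨_, _, h'⟩
        exact ⟨hF, hp0, h.mp h'⟩
      · rintro ⟨_, _, h'⟩
        exact ⟨hF, hp0, h.mpr h'⟩
    · constructor
      · rintro ⟨_, h', _⟩
        exact absurd h' hp0
      · rintro ⟨_, h', _⟩
        exact absurd h' hp0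
  have hcnt : ∀ p : ℕ, p.Prime → max 5 (max p1 p2) ≤ p →
    (({a ∈ B p | ∀ i, 0 ≤ a i ∧ a i < p} : Set (Fin n → ℤ)).ncard : ℝ) * p ≤
      ((n : ℝ) ^ 2 * (E.card : ℝ)) * (p : ℝ) ^ n := by
    intro p hp hp0
    have hF : Fact p.Prime := ⟨hp⟩
    have h := (hBDC p hp ℂ_[p] (hKX p) n (E.image (σ p hF)) (hS p hF hp0)).2
    have e : ({a ∈ B p | ∀ i, 0 ≤ a i ∧ a i < p} : Set (Fin n → ℤ)) =
        {a : Fin n → ℤ | (∃ i j, i ≠ j ∧ ∃ α ∈ E.image (σ p hF),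
          ‖((a i : ℤ) : ℂ_[p]) - α * ((a j : ℤ) : ℂ_[p])‖ < 1) ∧ ∀ i, 0 ≤ a i ∧ a i < p} := by
      ext a
      constructor
      · rintro ⟨⟨_, _, h1⟩, h2⟩
        exact ⟨h1, h2⟩
      · rintro ⟨h1, h2⟩
        exact ⟨⟨hF, hp0, h1⟩, h2⟩
    rw [e]
    refine le_trans h ?_
    have hc : ((E.image (σ p hF)).card : ℝ) ≤ (E.card : ℝ) := by
      exact_mod_cast Finset.card_image_le
    exact mul_le_mul_of_nonneg_right (mul_le_mul_of_nonneg_left hc (by positivity)) (by positivity)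
  obtain ⟨H₀, hH⟩ := hDN3 n (max 5 (max p1 p2)) ((n : ℝ) ^ 2 * (E.card : ℝ)) ε hε B hper hcnt
  refine ⟨H₀, fun H hHH A hAA => hH H hHH A ?_⟩
  intro w hw
  obtain ⟨hw1, hw2, hw3, hw4⟩ := hAA w hw
  refine ⟨hw1, hw2, hw3, ?_⟩
  rintro ⟨p, hpp, hp0, hpN, hpN2, hpa, hB⟩
  apply hw4
  have hF : Fact p.Prime := ⟨hpp⟩
  have hnN : padicNorm p ((w.2 : ℤ) : ℚ) = (p : ℚ)⁻¹ := norm_exact hpN hpN2
  have hnN' : ‖((w.2 : ℤ) : ℂ_[p])‖ = (p : ℝ)⁻¹ := by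
    have h := hKX p ((w.2 : ℤ) : ℚ)
    rw [Rat.cast_intCast, hnN] at h
    rw [h]
    simp
  have := key p hp0 (σ p hF) (fun i => ((w.1 i : ℤ) : ℚ) / ((w.2 : ℤ) : ℚ)) ?_ ?_
  · have e : (fun i => (w.1 i : ℂ) / (w.2 : ℂ)) =
        fun i => (((((w.1 i : ℤ) : ℚ) / ((w.2 : ℤ) : ℚ) : ℚ)) : ℂ) := by
      funext i
      push_cast
      rfl
    rw [e]
    exact this
  · intro i
    have h1 : padicNorm p ((w.1 i : ℤ) : ℚ) = 1 := (padicNorm.int_eq_one_iff _).mpr (hpa i)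
    rw [padicNorm.div, h1, hnN]
    simp
  · intro i j hij α hα
    have hB' : ¬ ‖((w.1 i : ℤ) : ℂ_[p]) - σ p hF α * ((w.1 j : ℤ) : ℂ_[p])‖ < 1 := by
      intro h
      exact hB ⟨hF, hp0, i, j, hij, σ p hF α, Finset.mem_image_of_mem _ hα, h⟩
    have h1 := norm_sub_one (norm_int_le (hKX p) (w.1 i)) (b := σ p hF α * ((w.1 j : ℤ) : ℂ_[p]))
      (by
        rw [norm_mul]
        exact mul_le_one₀ (hS p hF hp0 _ (Finset.mem_image_of_mem _ hα)) (norm_nonneg _)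
          (norm_int_le (hKX p) (w.1 j))) hB'
    have e : (((((w.1 i : ℤ) : ℚ) / ((w.2 : ℤ) : ℚ) : ℚ)) : ℂ_[p]) -
        σ p hF α * (((((w.1 j : ℤ) : ℚ) / ((w.2 : ℤ) : ℚ) : ℚ)) : ℂ_[p]) =
        (((w.1 i : ℤ) : ℂ_[p]) - σ p hF α * ((w.1 j : ℤ) : ℂ_[p])) / ((w.2 : ℤ) : ℂ_[p]) := by
      push_cast
      ring
    rw [e, norm_div, h1, hnN']
    simp

end Pool.Agent.ZP3.H09
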